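import Mathlib
import Pool.Agent.Helper91.PolyTime.Reduction
import Pool.Agent.Helper91.PolyTime.Verifier

/-!
# Recognition of triangle graphs is co-NP-complete
-/

open Turing Computability

namespace Pool.Agent.Results.MP_679d83_lc.CoNPComplete

/-- The triangle condition: for every maximal stable set `S` and every edge `uv` outside `S`, some
vertex of `S` is adjacent to both ends. -/
def IsTriangleGraph {V : Type*} (G : SimpleGraph V) : Prop :=
  ∀ S : Set V, Maximal G.IsIndepSet S → ∀ u v : V, G.Adj u v → u ∉ S → v ∉ S →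
    ∃ s ∈ S, G.Adj s u ∧ G.Adj s v

/-- The string `w` is the adjacency matrix of the graph `G` with vertices `0, ..., n - 1`, written
row by row. -/
def IsAdjacencyMatrix {n : ℕ} (G : SimpleGraph (Fin n)) (w : List Bool) : Prop :=
  w.length = n * n ∧ ∀ i j : Fin n, w[i.1 * n + j.1]? = some true ↔ G.Adj i j

/-- The language TRIANGLE: the adjacency matrices of the triangle graphs. -/
def TRIANGLE : Set (List Bool) :=
  {w | ∃ (n : ℕ) (G : SimpleGraph (Fin n)), IsAdjacencyMatrix G w ∧ IsTriangleGraph G}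

/-- The function `f` on strings is computable in polynomial time by a Turing machine. -/
def PolyTimeFun (f : List Bool → List Bool) : Prop :=
  Nonempty (TM2ComputableInPolyTime (id : List Bool → List Bool) (id : List Bool → List Bool) f)

/-- The Boolean function `R` of two strings is computable in polynomial time by a Turing machine. -/
def PolyTimeRel (R : List Bool × List Bool → Bool) : Prop :=
  Nonempty (TM2ComputableInPolyTime
    (encodingProd (encodingList Bool) (encodingList Bool)).encode encodeBool R)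

/-- The class NP: `x ∈ L` if and only if there is a certificate `y` of length polynomial in the
length of `x` that is accepted by a fixed polynomial-time verifier. -/
def InNP (L : Set (List Bool)) : Prop :=
  ∃ (p : Polynomial ℕ) (R : List Bool × List Bool → Bool), PolyTimeRel R ∧
    ∀ x, x ∈ L ↔ ∃ y : List Bool, y.length ≤ p.eval x.length ∧ R (x, y) = true

/-- The class co-NP. -/
def InCoNP (L : Set (List Bool)) : Prop := InNP Lᶜ

/-- Polynomial-time many-one reducibility. -/
def Reduces (A B : Set (List Bool)) : Prop :=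
  ∃ f : List Bool → List Bool, PolyTimeFun f ∧ ∀ x, x ∈ A ↔ f x ∈ B

/-- Completeness for co-NP under polynomial-time many-one reductions. -/
def IsCoNPComplete (A : Set (List Bool)) : Prop := InCoNP A ∧ ∀ L, InCoNP L → Reduces L A

open Pool.Agent.Helper91.PolyTime Pool.Agent.Helper91.CookLevin Pool.Agent.Helper91.Reduction
open Pool.Agent.Helper91.Verifier

/-! ### Membership -/

/-- A bit of a string (`false` outside the string). -/
def bit (l : List Bool) (i : ℕ) : Bool := l[i]?.getD false

/-- The string is the adjacency matrix of a graph with `n` vertices. -/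
def validB (n : ℕ) (w : List Bool) : Bool :=
  decide (n * n = w.length) && (List.range n).all fun i => !(bit w (i * n + i)) &&
    (List.range n).all fun j => decide (bit w (i * n + j) = bit w (j * n + i))

/-- The set `y` is a maximal stable set that violates the triangle condition. -/
def certB (n : ℕ) (w y : List Bool) : Bool :=
  ((List.range n).all fun i => (List.range n).all fun j =>
    !(bit y i && bit y j && bit w (i * n + j))) &&
  ((List.range n).all fun i => bit y i || (List.range n).any fun j =>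
    bit y j && bit w (i * n + j)) &&
  ((List.range n).any fun u => (List.range n).any fun v =>
    !(bit y u) && !(bit y v) && bit w (u * n + v) && (List.range n).all fun s =>
      !(bit y s && bit w (s * n + u) && bit w (s * n + v)))

/-- The verifier for the complement of TRIANGLE. -/
def verifier (a : List Bool × List Bool) : Bool :=
  !((List.range (a.1.length + 1)).any fun n => validB n a.1) ||
    (List.range (a.1.length + 1)).any fun n => validB n a.1 && certB n a.1 a.2

section ptime

variable {α : Type*} [PEnc α]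

lemma ptf_bit {l : α → List Bool} {i : α → ℕ} (hl : PTF l) (hi : PTF i) :
    PTF (fun a => bit (l a) (i a)) :=
  (PTF.ofFinite (fun o : Option Bool => o.getD false)).comp (PTF.getElem? hi hl)

lemma ptf_validB {n : α → ℕ} {w : α → List Bool} (hn : PTF n) (hw : PTF w) :
    PTF (fun a => validB (n a) (w a)) := by
  unfold validB
  refine PTF.and (PTF.eq (PTF.mul hn hn) (PTF.length hw)) ?_
  refine PTF.all (PTF.range hn) ?_
  have hn1 : PTF (fun p : α × ℕ => n p.1) := hn.comp PTF.id.fst
  have hw1 : PTF (fun p : α × ℕ => w p.1) := hw.comp PTF.id.fst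
  refine PTF.and (PTF.not (ptf_bit hw1 (PTF.add (PTF.mul PTF.id.snd hn1) PTF.id.snd))) ?_
  refine PTF.all (PTF.range hn1) ?_
  have hn2 : PTF (fun p : (α × ℕ) × ℕ => n p.1.1) := hn.comp PTF.id.fst.fst
  have hw2 : PTF (fun p : (α × ℕ) × ℕ => w p.1.1) := hw.comp PTF.id.fst.fst
  exact PTF.eq (ptf_bit hw2 (PTF.add (PTF.mul PTF.id.fst.snd hn2) PTF.id.snd))
    (ptf_bit hw2 (PTF.add (PTF.mul PTF.id.snd hn2) PTF.id.fst.snd))

lemma ptf_certB {n : α → ℕ} {w y : α → List Bool} (hn : PTF n) (hw : PTF w) (hy : PTF y) :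
    PTF (fun a => certB (n a) (w a) (y a)) := by
  have hn1 : PTF (fun p : α × ℕ => n p.1) := hn.comp PTF.id.fst
  have hw1 : PTF (fun p : α × ℕ => w p.1) := hw.comp PTF.id.fst
  have hy1 : PTF (fun p : α × ℕ => y p.1) := hy.comp PTF.id.fst
  have hn2 : PTF (fun p : (α × ℕ) × ℕ => n p.1.1) := hn.comp PTF.id.fst.fst
  have hw2 : PTF (fun p : (α × ℕ) × ℕ => w p.1.1) := hw.comp PTF.id.fst.fst
  have hy2 : PTF (fun p : (α × ℕ) × ℕ => y p.1.1) := hy.comp PTF.id.fst.fst
  have hn3 : PTF (fun p : ((α × ℕ) × ℕ) × ℕ => n p.1.1.1) := hn.comp PTF.id.fst.fst.fst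
  have hw3 : PTF (fun p : ((α × ℕ) × ℕ) × ℕ => w p.1.1.1) := hw.comp PTF.id.fst.fst.fst
  have hy3 : PTF (fun p : ((α × ℕ) × ℕ) × ℕ => y p.1.1.1) := hy.comp PTF.id.fst.fst.fst
  unfold certB
  refine PTF.and (PTF.and ?_ ?_) ?_
  · refine PTF.all (PTF.range hn) (PTF.all (PTF.range hn1) ?_)
    exact PTF.not (PTF.and (PTF.and (ptf_bit hy2 PTF.id.fst.snd) (ptf_bit hy2 PTF.id.snd))
      (ptf_bit hw2 (PTF.add (PTF.mul PTF.id.fst.snd hn2) PTF.id.snd)))
  · refine PTF.all (PTF.range hn) (PTF.or (ptf_bit hy1 PTF.id.snd)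
      (PTF.any (PTF.range hn1) ?_))
    exact PTF.and (ptf_bit hy2 PTF.id.snd)
      (ptf_bit hw2 (PTF.add (PTF.mul PTF.id.fst.snd hn2) PTF.id.snd))
  · refine PTF.any (PTF.range hn) (PTF.any (PTF.range hn1) ?_)
    refine PTF.and (PTF.and (PTF.and (PTF.not (ptf_bit hy2 PTF.id.fst.snd))
      (PTF.not (ptf_bit hy2 PTF.id.snd)))
      (ptf_bit hw2 (PTF.add (PTF.mul PTF.id.fst.snd hn2) PTF.id.snd)))
      (PTF.all (PTF.range hn2) ?_)
    exact PTF.not (PTF.and (PTF.and (ptf_bit hy3 PTF.id.snd)
      (ptf_bit hw3 (PTF.add (PTF.mul PTF.id.snd hn3) PTF.id.fst.fst.snd)))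
      (ptf_bit hw3 (PTF.add (PTF.mul PTF.id.snd hn3) PTF.id.fst.snd)))

lemma ptf_verifier : PTF verifier := by
  have h1 : PTF (fun a : List Bool × List Bool => List.range (a.1.length + 1)) :=
    PTF.range (PTF.succ (PTF.length PTF.id.fst))
  have h : PTF (fun a : List Bool × List Bool =>
      !((List.range (a.1.length + 1)).any fun n => validB n a.1) ||
    (List.range (a.1.length + 1)).any fun n => validB n a.1 && certB n a.1 a.2) := by
    refine PTF.or (PTF.not (PTF.any h1 ?_)) (PTF.any h1 (PTF.and ?_ ?_))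
    · exact ptf_validB PTF.id.snd PTF.id.fst.fst
    · exact ptf_validB PTF.id.snd PTF.id.fst.fst
    · exact ptf_certB PTF.id.snd PTF.id.fst.fst PTF.id.fst.snd
  exact h

end ptime

lemma bit_eq_true {l : List Bool} {i : ℕ} : bit l i = true ↔ l[i]? = some true := by
  unfold bit
  cases h : l[i]? with
  | none => simp
  | some b => simp

lemma validB_iff (n : ℕ) (w : List Bool) :
    validB n w = true ↔ ∃ G : SimpleGraph (Fin n), IsAdjacencyMatrix G w := by
  simp only [validB, Bool.and_eq_true, decide_eq_true_eq, List.all_eq_true, List.mem_range,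
    Bool.not_eq_true']
  constructor
  · rintro ⟨h1, h2⟩
    refine ⟨{ Adj := fun i j => bit w (i.1 * n + j.1) = true
              symm := ⟨fun i j h => ?_⟩
              loopless := ⟨fun i h => ?_⟩ }, h1.symm, ?_⟩
    · rw [(h2 j.1 j.2).2 i.1 i.2]; exact h
    · rw [(h2 i.1 i.2).1] at h; simp at h
    · intro i j
      exact bit_eq_true.symm
  · rintro ⟨G, h1, h2⟩
    refine ⟨h1.symm, fun i hi => ⟨?_, fun j hj => ?_⟩⟩
    · rw [Bool.eq_false_iff]
      intro h
      rw [bit_eq_true] at h
      exact G.irrefl ((h2 ⟨i, hi⟩ ⟨i, hi⟩).1 h)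
    · have h3 := h2 ⟨i, hi⟩ ⟨j, hj⟩
      have h4 := h2 ⟨j, hj⟩ ⟨i, hi⟩
      rw [Bool.eq_iff_iff, bit_eq_true, bit_eq_true]
      exact h3.trans ((G.adj_comm _ _).trans h4.symm)

lemma certB_iff {n : ℕ} {w : List Bool} {G : SimpleGraph (Fin n)} (hG : IsAdjacencyMatrix G w)
    (y : List Bool) : certB n w y = true ↔
      Maximal G.IsIndepSet {i : Fin n | bit y i.1 = true} ∧ ∃ u v : Fin n, G.Adj u v ∧
        bit y u.1 = false ∧ bit y v.1 = false ∧
        ∀ s : Fin n, bit y s.1 = true → ¬ (G.Adj s u ∧ G.Adj s v) := by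
  have hadj : ∀ i j : Fin n, bit w (i.1 * n + j.1) = true ↔ G.Adj i j := fun i j =>
    bit_eq_true.trans (hG.2 i j)
  simp only [certB, Bool.and_eq_true, List.all_eq_true, List.any_eq_true, List.mem_range,
    Bool.not_eq_true', Bool.and_eq_false_imp, Bool.or_eq_true]
  constructor
  · rintro ⟨⟨h1, h2⟩, u, hu, v, hv, ⟨⟨⟨hyu, hyv⟩, huv⟩, h3⟩⟩
    refine ⟨⟨?_, ?_⟩, ⟨u, hu⟩, ⟨v, hv⟩, (hadj ⟨u, hu⟩ ⟨v, hv⟩).1 huv, hyu, hyv, ?_⟩
    · intro i hi j hj _ hij
      have := h1 i.1 i.2 j.1 j.2 ⟨hi, hj⟩
      rw [(hadj i j).2 hij] at this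
      simp at this
    · intro T hT hsub i hi
      rcases h2 i.1 i.2 with h | ⟨j, hj, hyj, hij⟩
      · exact h
      · by_contra hni
        have hjT : (⟨j, hj⟩ : Fin n) ∈ T := hsub hyj
        have hne : i ≠ ⟨j, hj⟩ := by
          rintro rfl
          exact hni hyj
        exact hT hi hjT hne ((hadj i ⟨j, hj⟩).1 hij)
    · rintro s hs ⟨hsu, hsv⟩
      have := h3 s.1 s.2 ⟨hs, (hadj s ⟨u, hu⟩).2 hsu⟩
      rw [(hadj s ⟨v, hv⟩).2 hsv] at this
      simp at this
  · rintro ⟨hmax, u, v, huv, hyu, hyv, h3⟩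
    refine ⟨⟨?_, ?_⟩, u.1, u.2, v.1, v.2, ⟨⟨⟨hyu, hyv⟩, (hadj u v).2 huv⟩, ?_⟩⟩
    · rintro i hi j hj ⟨hyi, hyj⟩
      rw [Bool.eq_false_iff]
      intro hij
      have hij' := (hadj ⟨i, hi⟩ ⟨j, hj⟩).1 hij
      have hyi' : (⟨i, hi⟩ : Fin n) ∈ {i : Fin n | bit y i.1 = true} := hyi
      have hyj' : (⟨j, hj⟩ : Fin n) ∈ {i : Fin n | bit y i.1 = true} := hyj
      exact hmax.prop hyi' hyj' (G.ne_of_adj hij') hij'
    · intro i hi
      by_contra hno
      push Not at hno
      obtain ⟨hyi, hno⟩ := hno
      have hins : G.IsIndepSet (insert (⟨i, hi⟩ : Fin n) {i : Fin n | bit y i.1 = true}) := by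
        have hnadj : ∀ j : Fin n, bit y j.1 = true → ¬ G.Adj ⟨i, hi⟩ j := fun j hj hij =>
          hno j.1 j.2 hj ((hadj ⟨i, hi⟩ j).2 hij)
        intro a ha b hb hab hadj'
        rcases ha with rfl | ha <;> rcases hb with rfl | hb
        · exact hab rfl
        · exact hnadj b hb hadj'
        · exact hnadj a ha hadj'.symm
        · exact hmax.prop ha hb hab hadj'
      have := hmax.le_of_ge hins (Set.subset_insert _ _) (Set.mem_insert _ _)
      exact hyi this
    · rintro s hs ⟨hys, hsu⟩
      rw [Bool.eq_false_iff]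
      intro hsv
      exact h3 ⟨s, hs⟩ hys ⟨(hadj ⟨s, hs⟩ u).1 hsu, (hadj ⟨s, hs⟩ v).1 hsv⟩

lemma adj_unique {n : ℕ} {G G' : SimpleGraph (Fin n)} {w : List Bool}
    (h : IsAdjacencyMatrix G w) (h' : IsAdjacencyMatrix G' w) : G = G' := by
  ext i j
  exact (h.2 i j).symm.trans (h'.2 i j)

/-- TRIANGLE is in co-NP. -/
theorem triangle_inCoNP : InCoNP TRIANGLE := by
  refine ⟨Polynomial.X, verifier, tm2_of_ptf ptf_verifier, fun w => ?_⟩
  simp only [verifier, Bool.or_eq_true, Bool.not_eq_true', List.any_eq_true,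
    Bool.and_eq_true, Polynomial.eval_X]
  constructor
  · intro hw
    by_cases hval : ∃ n, ∃ G : SimpleGraph (Fin n), IsAdjacencyMatrix G w
    · obtain ⟨n, G, hG⟩ := hval
      have hnT : ¬ IsTriangleGraph G := fun h => hw ⟨n, G, hG, h⟩
      unfold IsTriangleGraph at hnT
      push Not at hnT
      obtain ⟨S, hS, u, v, huv, hu, hv, hno⟩ := hnT
      classical
      have hbit : ∀ i : Fin n, bit (List.ofFn fun i : Fin n => decide (i ∈ S)) i.1 = true ↔
          i ∈ S := by
        intro i
        rw [bit_eq_true]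
        simp
      refine ⟨List.ofFn fun i : Fin n => decide (i ∈ S), ?_, Or.inr ⟨n, ?_, ?_, ?_⟩⟩
      · rw [List.length_ofFn, hG.1]
        exact Nat.le_mul_self n
      · rw [List.mem_range, hG.1]
        have := Nat.le_mul_self n
        omega
      · exact (validB_iff n w).2 ⟨G, hG⟩
      · rw [certB_iff hG]
        have hset : {i : Fin n | bit (List.ofFn fun i : Fin n => decide (i ∈ S)) i.1 = true} =
            S := by
          ext i; exact hbit i
        rw [hset]
        refine ⟨hS, u, v, huv, ?_, ?_, ?_⟩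
        · rw [Bool.eq_false_iff]; intro h; exact hu ((hbit u).1 h)
        · rw [Bool.eq_false_iff]; intro h; exact hv ((hbit v).1 h)
        · rintro s hs ⟨h1, h2⟩
          exact hno s ((hbit s).1 hs) h1 h2
    · refine ⟨[], by simp, Or.inl ?_⟩
      rw [Bool.eq_false_iff]
      intro h
      rw [List.any_eq_true] at h
      obtain ⟨n, -, h⟩ := h
      exact hval ⟨n, (validB_iff n w).1 h⟩
  · rintro ⟨y, -, h⟩ ⟨n, G, hG, hT⟩
    rcases h with h | ⟨m, hm, hval, hcert⟩
    · rw [Bool.eq_false_iff] at h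
      refine h ?_
      rw [List.any_eq_true]
      refine ⟨n, ?_, (validB_iff n w).2 ⟨G, hG⟩⟩
      rw [List.mem_range, hG.1]
      have := Nat.le_mul_self n
      omega
    · obtain ⟨G', hG'⟩ := (validB_iff m w).1 hval
      have hmn : m = n := by
        have h1 : m * m = n * n := hG'.1.symm.trans hG.1
        exact Nat.mul_self_inj.1 h1
      subst hmn
      obtain rfl := adj_unique hG hG'
      rw [certB_iff hG] at hcert
      obtain ⟨hmax, u, v, huv, hu, hv, hno⟩ := hcert
      obtain ⟨s, hs, h1, h2⟩ := hT _ hmax u v huv (by simp [hu]) (by simp [hv])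
      exact hno s hs ⟨h1, h2⟩

/-! ### Hardness -/

/-- TRIANGLE is co-NP-hard. -/
theorem triangle_hard (L : Set (List Bool)) (hL : InCoNP L) : Reduces L TRIANGLE := by
  obtain ⟨p, R, ⟨H⟩, hR⟩ := hL
  let M := H.toTM2ComputableAux
  let q : Polynomial ℕ := Polynomial.C (bnd H.tm) * H.time.comp (Polynomial.X + p) +
    (Polynomial.X + p)
  let P : List Bool → ℕ := fun x => p.eval x.length
  let N : List Bool → ℕ := fun x => q.eval x.length
  have hN1 : ∀ x : List Bool, bnd H.tm * H.time.eval (x.length + P x) ≤ N x := by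
    intro x
    simp only [N, P, q, Polynomial.eval_add, Polynomial.eval_mul, Polynomial.eval_C,
      Polynomial.eval_comp, Polynomial.eval_X]
    omega
  have hN2 : ∀ x : List Bool, x.length + P x ≤ N x := by
    intro x
    simp only [N, P, q, Polynomial.eval_add, Polynomial.eval_mul, Polynomial.eval_C,
      Polynomial.eval_comp, Polynomial.eval_X]
    omega
  refine ⟨fun x => Pool.Agent.Helper91.Triangle.bits (vertices M (P x) (N x) x), ?_, ?_⟩
  · -- polynomial time
    refine tm2_of_ptf_str ?_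
    refine PTF.strOfList (ptf_bits (ptf_vertices M ?_ ?_ ?_))
    · exact PTF.strToList PTF.id
    · exact PTF.polyEval p (PTF.length (PTF.strToList PTF.id))
    · exact PTF.polyEval q (PTF.length (PTF.strToList PTF.id))
  · intro x
    classical
    have h1 := sat_iff H x (P x) (N x) (hN1 x) (hN2 x)
    have h2 := vertices_iff M (P x) (N x) x
    have h3 : x ∈ L ↔ ¬ ∃ α : Var → D M.tm, Sat M x (P x) (N x) α := by
      have h4 := hR x
      rw [Set.mem_compl_iff] at h4
      rw [← not_iff_not, not_not, h4]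
      exact h1
    rw [h3, ← h2]
    set V := vertices M (P x) (N x) x with hV
    have hmat : IsAdjacencyMatrix (Pool.Agent.Helper91.Triangle.listGraph V
        (vertices_consistent M (P x) (N x) x)) (Pool.Agent.Helper91.Triangle.bits V) := by
      refine ⟨Pool.Agent.Helper91.Triangle.length_bits V, fun i j => ?_⟩
      rw [Pool.Agent.Helper91.Triangle.getElem?_bits V (vertices_consistent M (P x) (N x) x) i j]
      simp
    constructor
    · intro hT
      exact ⟨_, _, hmat, hT⟩
    · rintro ⟨n, G, hG, hT⟩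
      have hn : n = V.length := by
        have h5 : n * n = V.length * V.length := hG.1.symm.trans hmat.1
        exact Nat.mul_self_inj.1 h5
      subst hn
      rw [adj_unique hmat hG]
      exact hT

/-- **The result.** The recognition problem TRIANGLE, given by adjacency matrices, is
co-NP-complete under polynomial-time many-one reductions. -/
theorem result : IsCoNPComplete TRIANGLE := ⟨triangle_inCoNP, triangle_hard⟩

end Pool.Agent.Results.MP_679d83_lc.CoNPComplete
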